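import Pool.Agent.W184.LIP.Defs
import Pool.Agent.W184.LIP.ELIM
import Pool.Agent.W184.LIP.SIDEL
import Pool.Agent.W184.LIP.SIDER
import Pool.Agent.W184.LIP.COUNTB
import Pool.Agent.W184.LIP.NLB
import Pool.Agent.W184.LIP.LB
import Pool.Agent.W184.LIP.FACTS
import Pool.Agent.W184.LIP.STEPI
import Pool.Agent.W184.LIP.STEPE
import Pool.Agent.W184.LIP.STEP
import Pool.Agent.W184.LIP.TREE
import Pool.Agent.W184.LIP.CONV
import Pool.Agent.W184.LIP.UB
import Pool.Agent.W184.LIP.FLUB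
import Pool.Agent.W184.LIP.ALBE
import Pool.Agent.W184.LIP.ALBO
import Pool.Agent.W184.LIP.AUBE
import Pool.Agent.W184.LIP.AUBO
import Pool.Agent.W184.LIP.FIN

set_option autoImplicit false

/-!
MP_6d7b3f_co, Q1: the growth rate of the longest induced path forced by a path on `n` vertices in
graphs of treewidth at most `k`, for every fixed `k ≥ 2`:

* `f(W_{2j}, n) = Θ((log n)^{1/j})`,
* `f(W_{2j+1}, n) = Θ((log n / log log n)^{1/j})`.

In particular for `k = 3` the growth rate is `log n / log log n`.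
-/

open Filter Asymptotics Pool.Agent.W184.LIP

theorem Pool.Agent.Results.MP_6d7b3f_co.Growth.result :
    ∀ j : ℕ, 1 ≤ j →
      ((∀ n, IsGreatest (Forced (2 * j) n) (f (2 * j) n)) ∧
        (fun n : ℕ => (f (2 * j) n : ℝ)) =Θ[atTop] (fun n : ℕ => Real.log n ^ ((1 : ℝ) / j))) ∧
      ((∀ n, IsGreatest (Forced (2 * j + 1) n) (f (2 * j + 1) n)) ∧
        (fun n : ℕ => (f (2 * j + 1) n : ℝ)) =Θ[atTop]
          (fun n : ℕ => (Real.log n / Real.log (Real.log n)) ^ ((1 : ℝ) / j))) := by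
  have hUB : S_UB := UB.pf (STEP.pf (STEPI.pf FACTS.pf) (STEPE.pf FACTS.pf)) (CONV.pf TREE.pf)
  have hLB : S_LB := LB.pf ELIM.pf (NLB.pf SIDEL.pf (SIDER.pf SIDEL.pf) COUNTB.pf)
  have hFLB : S_FLB := FLUB.pf.1 hLB hUB
  have hFUB : S_FUB := FLUB.pf.2 hUB
  intro j hj
  exact ⟨⟨fun n => FIN.greatest hUB j 0 n hj, AUBE.pf hFUB j hj, ALBE.pf hFLB j hj⟩,
    ⟨fun n => FIN.greatest hUB j 1 n hj, AUBO.pf hFUB j hj, ALBO.pf hFLB j hj⟩⟩
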